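import Pool.Agent.Helper68_C4U.Fin

/-!
# Independent sets of size `k` in graphs without induced 4-cycles: exponent `k / 2 + c`

`DecidesIn`, `Runs`, `C4FreeGraph`, `encGraph`, `HasIndep` are defined in `Pool/Agent/C4F/Defs.lean`.

PROOF.  (1) Local search: an independent set `J` is enlarged by a vertex without neighbours in `J`, or by
exchanging a vertex `a` of `J` for two nonadjacent vertices whose only neighbour in `J` is `a`.  If it stops
with less than `k` elements, all vertices are in at most `k ^ 2` cliques: common neighbours of two elements of
`J`, and vertices with only one neighbour in `J`.  (2) Between two cliques the neighbourhoods are nested, so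
nonadjacency of `x` and `y` means `r(x) < t(y)` for two numbers at most `N + 1`, and there is exactly one
dyadic interval with `r(x)` in its left and `t(y)` in its right half.  (3) Backtracking over the names of the
`k` cliques and the `k (k - 1) / 2` dyadic intervals; a partial choice is kept if for every `i` SEPARATELY
there is a vertex compatible with it.  Every interval belongs to two vertices, so by the Cauchy-Schwarz
inequality the number of partial choices which are kept is at most the square root of the product of the numbers
of choices of the single vertices, `k ^ (2 k) ((N + 1) (log_2 (N + 1) + 1) ^ k) ^ (k / 2)`.  (4) One step of the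
search is done by a machine whose polynomial time bound does not depend on `k`.
-/

set_option autoImplicit false

namespace Pool.Agent.Results.MP_be2f05_lc.HalfExponent

open Pool.Agent.C4F

/-- There is a constant `c` such that for every `k` there are a constant `C` and a machine which decides
in at most `C (N + 1) ^ (k / 2 + c)` steps whether a graph with `N` vertices and without induced 4-cycle has an
independent set of `k` vertices. -/
theorem result :
    ∃ c : ℕ, ∀ k : ℕ, ∃ C : ℝ,
      DecidesIn encGraph (HasIndep k) (fun x => C * ((x.N : ℝ) + 1) ^ ((k : ℝ) / 2 + c)) :=
  C4U.H68.final

end Pool.Agent.Results.MP_be2f05_lc.HalfExponent
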