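import Pool.Agent.Helper91_C4F.Asm

/-!
# Independent sets of size `k` in graphs without induced 4-cycles: linear exponent

`DecidesIn`, `Runs`, `C4FreeGraph`, `encGraph`, `HasIndep`, `CNF3`, `CNF3.Sat`, `Lt`, `encLit`,
`encCNF` are defined in `Pool/Agent/C4F/Defs.lean`.
-/

set_option autoImplicit false

namespace Pool.Agent.Results.MP_be2f05_lc.LinearExponent

open Pool.Agent.C4F

/-- (1) For every `δ > 0` there is `k₀` such that for every fixed `k ≥ k₀`: if independent sets of
size `k` in graphs with `N` vertices and no induced 4-cycle are decided by a machine in time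
`C (N + 1) ^ (δ k)`, then 3-SAT (`n` variables, `m` clauses) is decided by a machine in time
`C' 2 ^ (360 δ (n + m))`.
(2) Hence, if (exponential time hypothesis) for some `ε > 0` no machine decides 3-SAT in time
`C 2 ^ (ε (n + m))`, then there are `δ > 0` and `k₀` such that for no `k ≥ k₀` a machine decides the
independent set problem in time `C (N + 1) ^ (δ k)`.
(3) Under the same hypothesis, for no functions `f`, `g` with `g k / k → 0` the problem is decided in
time `f(k) (N + 1) ^ g(k)` for all `k` (even by a different machine for each `k`). -/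
theorem result :
    (∀ δ : ℝ, 0 < δ → ∃ k₀ : ℕ, ∀ k ≥ k₀,
      (∃ C : ℝ, DecidesIn encGraph (HasIndep k) (fun x => C * ((x.N : ℝ) + 1) ^ (δ * k))) →
      ∃ C : ℝ, DecidesIn encCNF CNF3.Sat
        (fun φ => C * 2 ^ (360 * δ * ((φ.n : ℝ) + φ.clauses.length)))) ∧
    ((∃ ε : ℝ, 0 < ε ∧ ∀ C : ℝ, ¬ DecidesIn encCNF CNF3.Sat
        (fun φ => C * 2 ^ (ε * ((φ.n : ℝ) + φ.clauses.length)))) →
      (∃ δ : ℝ, 0 < δ ∧ ∃ k₀ : ℕ, ∀ k ≥ k₀, ∀ C : ℝ,
        ¬ DecidesIn encGraph (HasIndep k) (fun x => C * ((x.N : ℝ) + 1) ^ (δ * k))) ∧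
      ∀ f g : ℕ → ℝ, Filter.Tendsto (fun k : ℕ => g k / k) Filter.atTop (nhds 0) →
        ¬ ∀ k, DecidesIn encGraph (HasIndep k) (fun x => f k * ((x.N : ℝ) + 1) ^ g k)) :=
  ⟨H91.mainQ, fun hE => ⟨H91.mainE hE, fun f g hg => H91.mainO hE f g hg⟩⟩

end Pool.Agent.Results.MP_be2f05_lc.LinearExponent
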